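import Mathlib
import Pool.Agent.H65.N6P.Targets

/-! # Row PDSQ -/

set_option autoImplicit false

open Polynomial NumberField IsDedekindDomain Matrix Pool.Agent.H32.QC Pool.Agent.H34.N6
open Pool.Agent.H65.N6P

namespace Pool.Agent.H18.N6P

theorem pf_DSQ (hSQR : T_SQR) : T_DSQ := by
  intro F _ _ _ _ D hD hev
  obtain ⟨l, hl⟩ := hev
  rcases Nat.eq_zero_or_pos D.natDegree with h0 | h0
  · have h1 : D = 1 := by
      rw [Polynomial.eq_C_of_natDegree_eq_zero h0]
      have h2 := hD.coeff_natDegree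
      rw [h0] at h2
      rw [h2, C_1]
    refine ⟨0, ?_, ?_⟩
    · rw [h1]
      simp
    · rw [h1]
      simp
  · have h4 : (4 : F) ≠ 0 := by
      have : ((4 : ℕ) : F) ≠ 0 := Nat.cast_ne_zero.2 (by norm_num)
      exact_mod_cast this
    have h4n : 0 < ‖(4 : F)‖ := norm_pos_iff.2 h4
    set S : ℝ := ∑ i ∈ Finset.range D.natDegree, ‖D.coeff i‖ with hS
    have hS0 : 0 ≤ S := Finset.sum_nonneg fun i _ => norm_nonneg _
    obtain ⟨z, hz⟩ := NormedField.exists_lt_norm F (max 1 ((S + 1) / ‖(4 : F)‖))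
    have hz1 : 1 < ‖z‖ := lt_of_le_of_lt (le_max_left _ _) hz
    have hz2 : (S + 1) / ‖(4 : F)‖ < ‖z‖ := lt_of_le_of_lt (le_max_right _ _) hz
    have hz0 : z ≠ 0 := by
      intro h
      rw [h, norm_zero] at hz1
      linarith
    have hzp : 0 < ‖z‖ := by linarith
    set R : F := ∑ i ∈ Finset.range D.natDegree, D.coeff i * z ^ i with hR
    have hev : eval z D = R + z ^ D.natDegree := by
      rw [Polynomial.eval_eq_sum_range, Finset.sum_range_succ, hD.coeff_natDegree, one_mul]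
    have hRn : ‖R‖ ≤ S * ‖z‖ ^ (D.natDegree - 1) := by
      calc ‖R‖ ≤ ∑ i ∈ Finset.range D.natDegree, ‖D.coeff i‖ * ‖z‖ ^ (D.natDegree - 1) := by
            refine (norm_sum_le _ _).trans (Finset.sum_le_sum fun i hi => ?_)
            rw [norm_mul, norm_pow]
            apply mul_le_mul_of_nonneg_left _ (norm_nonneg _)
            apply pow_le_pow_right₀ hz1.le
            have := Finset.mem_range.1 hi
            omega
        _ = S * ‖z‖ ^ (D.natDegree - 1) := by rw [Finset.sum_mul]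
    have hx : ‖R / z ^ D.natDegree‖ < ‖(4 : F)‖ := by
      rw [norm_div, norm_pow, div_lt_iff₀ (pow_pos hzp _)]
      refine lt_of_le_of_lt hRn ?_
      have e1 : ‖z‖ ^ D.natDegree = ‖z‖ ^ (D.natDegree - 1) * ‖z‖ := by
        rw [← pow_succ]
        congr 1
        omega
      rw [e1, ← mul_assoc, mul_comm ‖(4 : F)‖, mul_assoc, mul_comm S]
      apply mul_lt_mul_of_pos_left _ (pow_pos hzp _)
      rw [div_lt_iff₀ h4n] at hz2
      nlinarith
    obtain ⟨u, hu, hu2⟩ := hSQR F _ hx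
    have key : eval z D = (z ^ l * u) * (z ^ l * u) := by
      have e2 : z ^ D.natDegree ≠ 0 := pow_ne_zero _ hz0
      have e3 : (z ^ l * u) * (z ^ l * u) = z ^ D.natDegree * u ^ 2 := by
        rw [hl, pow_add]
        ring
      rw [e3, hu2, hev, mul_add, mul_one, mul_div_cancel₀ _ e2]
      ring
    refine ⟨z, ?_, ⟨_, key⟩⟩
    rw [key]
    exact mul_ne_zero (mul_ne_zero (pow_ne_zero _ hz0) hu) (mul_ne_zero (pow_ne_zero _ hz0) hu)

end Pool.Agent.H18.N6P
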